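import Pool.Agent.X159.MB.LQP

/-!
# Montgomery's `ℓ^q` conjecture without coefficients, in the range `T ≤ N²`

Q1 (all `q ≥ 2`, all `T ≤ N^A`, all coefficients bounded by `1`) is equivalent to the estimate
`|∑_{n ∈ S} ∑_{t ∈ W} n^{it}| ≤ C N^(1+ε) |W|^(1-1/(2a))` for all sets `S` of integers in
`[N, 2N]` and all sets `W` of integers in `[1, N^a]`, `1 ≤ a ≤ 2`, to the corresponding mean value
estimate, and to the case `2 ≤ q ≤ 4`, `T ≤ N²` and coefficients `0` and `1` of Q1.
-/

set_option autoImplicit false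

namespace Pool.Agent.Results.MP_2a1f0e_nt.BilinearSetsSquareRange

open Pool.Agent.X159.MB

theorem result :
    (MontgomeryLq ↔ BilinearSquareRange) ∧ (MontgomeryLq ↔ MeanValueSquareRange) ∧
    (MontgomeryLq ↔ ForSetsSquareRange) := lq_main

end Pool.Agent.Results.MP_2a1f0e_nt.BilinearSetsSquareRange
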