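import Pool.Agent.X108.HB.LQ

set_option autoImplicit false

/-!
# Montgomery's `ℓ^q` conjecture on sets of small doubling

Let `D(t) = ∑_{N ≤ n ≤ 2N} b_n n^{it}`, `|b_n| ≤ 1`, let `n, k ≥ 1`, and let `P, X ⊂ ℤ ∩ [0,T]` with
`(2N)^(kn) ≤ |X|` and `(2T)^(n+1) ≤ |X|^(2n+1)`. Then, for all real `0 < q ≤ 2k`,
`∑_{t ∈ P} |D(t)|^q ≤ C T^ε |P + X| N^(q/2)`.

For `X = P` and `|P + P| ≤ K |P|` this is square root cancellation in `ℓ^q(P)` up to the factor
`K T^ε`, for `|P| ≥ T^((n+1)/(2n+1)+o(1))`.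
-/

namespace Pool.Agent.Results.MP_2a1f0e_nt.MomentsOnSmallDoubling

open Finset Pool.Agent.X108.HB
open scoped Pointwise

/-- `D(t) = ∑_{N ≤ n ≤ 2N} b_n n^{it}` -/
noncomputable def D (N : ℕ) (b : ℕ → ℂ) (t : ℝ) : ℂ :=
  ∑ n ∈ Finset.Icc N (2 * N),
    b n * Complex.exp (Complex.I * (t : ℂ) * ((Real.log (n : ℝ) : ℝ) : ℂ))

theorem sep_int (W : Finset ℤ) (x T : ℝ) (hW : ∀ t ∈ W, x ≤ (t : ℝ) ∧ (t : ℝ) ≤ x + T) :
    WS (W.image (Int.castAddHom ℝ)) x T := by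
  refine ⟨?_, ?_⟩
  · intro t ht u hu htu
    obtain ⟨z, hz, rfl⟩ := mem_image.1 ht
    obtain ⟨w, hw, rfl⟩ := mem_image.1 hu
    have hzw : z - w ≠ 0 := by
      intro h
      apply htu
      have : z = w := by omega
      rw [this]
    have := Int.one_le_abs hzw
    simp only [Int.coe_castAddHom]
    rw [← Int.cast_sub, ← Int.cast_abs]
    exact_mod_cast this
  · intro t ht
    obtain ⟨z, hz, rfl⟩ := mem_image.1 ht
    exact hW z hz

theorem result (n k : ℕ) (hn : 1 ≤ n) (hk : 1 ≤ k) (ε : ℝ) (hε : 0 < ε) :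
    ∃ C : ℝ, ∀ (N : ℕ) (T : ℝ) (b : ℕ → ℂ) (P X : Finset ℤ), 1 ≤ N →
      (∀ m ∈ Finset.Icc N (2 * N), ‖b m‖ ≤ 1) →
      (∀ t ∈ P, 0 ≤ (t : ℝ) ∧ (t : ℝ) ≤ T) → (∀ t ∈ X, 0 ≤ (t : ℝ) ∧ (t : ℝ) ≤ T) →
      (2 * N) ^ (k * n) ≤ X.card → (2 * T) ^ (n + 1) ≤ (X.card : ℝ) ^ (2 * n + 1) →
      ∀ q : ℝ, 0 < q → q ≤ 2 * k →
        ∑ t ∈ P, ‖D N b t‖ ^ q ≤ C * T ^ ε * ((P + X).card : ℝ) * (N : ℝ) ^ (q / 2) := by
  classical
  obtain ⟨C, hC1, hC⟩ := all_moments n k hn hk hε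
  refine ⟨C * 2 ^ ε * 2 ^ (k : ℝ), ?_⟩
  intro N T b P X hN hb hP hX hNX hTX q hq0 hq
  have hNr : (1 : ℝ) ≤ N := by exact_mod_cast hN
  have hXc : 1 ≤ X.card := (Nat.one_le_pow _ _ (by omega)).trans hNX
  obtain ⟨x0, hx0⟩ := card_pos.1 hXc
  have hT0' : 0 ≤ T := (hX x0 hx0).1.trans (hX x0 hx0).2
  -- `T ≥ 1`: otherwise `X` has at most one element
  have hT1 : 1 ≤ T := by
    by_contra h
    push Not at h
    have h1 : ∀ t ∈ X, t = 0 := by
      intro t ht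
      have h2 := hX t ht
      have h3 : (0 : ℤ) ≤ t := by exact_mod_cast h2.1
      have h4 : (t : ℝ) < 1 := by linarith
      have h5 : t < 1 := by exact_mod_cast h4
      omega
    have h2 : X.card ≤ 1 := card_le_one.2 fun a ha c hc => by rw [h1 a ha, h1 c hc]
    have h3 : 2 ≤ (2 * N) ^ (k * n) := by
      have h4 : 1 ≤ k * n := Nat.mul_pos hk hn
      calc 2 ≤ 2 * N := by omega
        _ ≤ (2 * N) ^ (k * n) := Nat.le_self_pow (by omega) _
    omega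
  have hT0 : 0 < T := by linarith
  set φ := Int.castAddHom ℝ with hφ
  have hinj : Function.Injective φ := Int.cast_injective
  have hcX : (X.image φ).card = X.card := card_image_of_injective _ hinj
  have hPX : P.image φ + X.image φ = (P + X).image φ := (image_add φ).symm
  have hcPX : (P.image φ + X.image φ).card = (P + X).card := by
    rw [hPX, card_image_of_injective _ hinj]
  have hwX : WS (X.image φ) 0 (2 * T) := sep_int X 0 (2 * T) (by
    intro t ht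
    have := hX t ht
    constructor <;> linarith)
  have hwPX : WS (P.image φ + X.image φ) 0 (2 * T) := by
    rw [hPX]
    apply sep_int
    intro t ht
    obtain ⟨u, hu, v, hv, rfl⟩ := mem_add.1 ht
    have h1 := hP u hu
    have h2 := hX v hv
    push_cast
    constructor <;> linarith
  set I : Finset ℕ := Icc N (2 * N) with hI
  have hIN : I ⊆ Icc 1 (2 * N) := Icc_subset_Icc hN le_rfl
  have hD : ∀ t : ℝ, D N b t = DD I b t := by
    intro t
    unfold D DD ee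
    refine sum_congr rfl fun m _ => ?_
    congr 2
    push_cast
    ring
  have key := hC (2 * T) (by linarith) (2 * N) (by omega) I hIN b hb (P.image φ) (X.image φ) 0 0
    hwX hwPX (by rw [hcX, ← pow_mul]; exact hNX) (by rw [hcX]; exact hTX) q hq0 hq
  rw [hcPX, sum_image (fun a _ c _ h => hinj h)] at key
  have e1 : ∑ t ∈ P, ‖D N b t‖ ^ q = ∑ t ∈ P, ‖DD I b (φ t)‖ ^ q := by
    refine sum_congr rfl fun t _ => ?_
    rw [hD]
    rfl
  rw [e1]
  refine key.trans ?_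
  push_cast
  rw [Real.mul_rpow (by norm_num) hT0.le, Real.mul_rpow (by norm_num) (by linarith)]
  have h2 : (2 : ℝ) ^ (q / 2) ≤ 2 ^ (k : ℝ) :=
    Real.rpow_le_rpow_of_exponent_le (by norm_num) (by linarith)
  calc C * (2 ^ ε * T ^ ε) * ((P + X).card : ℝ) * (2 ^ (q / 2) * (N : ℝ) ^ (q / 2))
      ≤ C * (2 ^ ε * T ^ ε) * ((P + X).card : ℝ) * (2 ^ (k : ℝ) * (N : ℝ) ^ (q / 2)) := by gcongr
    _ = _ := by ring

end Pool.Agent.Results.MP_2a1f0e_nt.MomentsOnSmallDoubling
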