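import Pool.Agent.Results.MP_ecd12e_nt.RandomFrequencies
import Pool.Agent.Results.MP_a93a41_nt.AlmostSurely

set_option autoImplicit false

/-!
# Montgomery's `ℓ^q` conjecture for almost every perturbation of the integers

(1) Blocks of `H` consecutive integers are shifted by independent random numbers of `[0, 1]`. With
high probability, for all coefficients and all `q ≥ 2` at once, the moment of order `q` is at most
`T (C N H log² N)^(q / 2) + C (2 N)^q log² N`. (2) For almost every sequence `θ`, the statement of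
Q1 holds word for word with `n + η θ_n` instead of `n`.
-/

namespace Pool.Agent.Results.MP_2a1f0e_nt.RandomFrequencies

open MeasureTheory Finset Pool.Agent.X149

/-- `D(t) = ∑_{N ≤ n ≤ 2 N} b_n (n + θ_m)^{it}`, where `m = ⌊(n - N) / H⌋` is the number of the block
of `H` consecutive integers which contains `n`. -/
noncomputable def D (N H : ℕ) (θ : Fin (N / H + 1) → ℝ) (b : ℕ → ℂ) (t : ℝ) : ℂ :=
  ∑ n ∈ Finset.Icc N (2 * N),
    b n * (((n : ℝ) + θ (Fin.ofNat (N / H + 1) ((n - N) / H)) : ℝ) : ℂ) ^ ((t : ℂ) * Complex.I)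

/-- `P(t) = ∑_{N ≤ n ≤ 2 N} b_n (n + η θ_n)^{it}` -/
noncomputable def P (η : ℝ) (θ : ℕ → unitInterval) (b : ℕ → ℂ) (N : ℕ) (t : ℝ) : ℂ :=
  ∑ n ∈ Finset.Icc N (2 * N), b n * (((n : ℝ) + η * (θ n : ℝ) : ℝ) : ℂ) ^ ((t : ℂ) * Complex.I)

theorem D_le (N H : ℕ) (hN : 2 ≤ N) (θ : Fin (N / H + 1) → ℝ) (hθ : θ ∈ Set.Icc 0 1) (b : ℕ → ℂ)
    (hb : ∀ n, ‖b n‖ ≤ 1) (t : ℝ) : ‖D N H θ b t‖ ≤ 2 * N := by
  unfold D
  have hN0 : (2 : ℝ) ≤ N := by exact_mod_cast hN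
  calc _ ≤ ∑ n ∈ Finset.Icc N (2 * N), (1 : ℝ) := by
        refine (norm_sum_le _ _).trans (sum_le_sum (fun n hn => ?_))
        have h0 : 0 ≤ θ (Fin.ofNat (N / H + 1) ((n - N) / H)) := hθ.1 _
        have h1 : (0 : ℝ) < (n : ℝ) + θ (Fin.ofNat (N / H + 1) ((n - N) / H)) := by
          have : (2 : ℝ) ≤ n := by exact_mod_cast hN.trans (mem_Icc.1 hn).1
          linarith
        rw [norm_mul, ← DU.ph_cpow h1, DU.ph_norm, mul_one]
        exact hb n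
    _ = N + 1 := by
        rw [sum_const, Nat.card_Icc, nsmul_eq_mul, mul_one]
        have : 2 * N + 1 - N = N + 1 := by omega
        rw [this]
        push_cast
        ring
    _ ≤ _ := by linarith

/-- from large values to the sum of the squares of the large values -/
theorem layer {ι : Type} (S : Finset ι) (F : ι → ℝ) (N : ℕ) (hN : 2 ≤ N) (V₀ K : ℝ) (hV₀ : 2 ≤ V₀)
    (hK : 0 ≤ K) (hF0 : ∀ i ∈ S, 0 ≤ F i) (hF : ∀ i ∈ S, F i ≤ 2 * N)
    (h : ∀ V : ℝ, V₀ ≤ V → ((S.filter (fun i => V ≤ F i)).card : ℝ) * V ^ 2 ≤ K) :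
    ∑ i ∈ S.filter (fun i => V₀ ≤ F i), F i ^ 2 ≤ 12 * Real.log N * K := by
  classical
  have hN0 : (2 : ℝ) ≤ N := by exact_mod_cast hN
  have hV0 : 0 < V₀ := by linarith
  have h1 : ∀ i ∈ S.filter (fun i => V₀ ≤ F i), F i ^ 2 ≤
      ∑ j ∈ range (Nat.log 2 N + 1), if 2 ^ j * V₀ ≤ F i then 4 * (2 ^ j * V₀) ^ 2 else 0 := by
    intro i hi
    obtain ⟨hiS, hiV⟩ := mem_filter.1 hi
    obtain ⟨j, hj1, hj2⟩ := exists_nat_pow_near (x := F i / V₀) (y := 2)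
      ((one_le_div hV0).2 hiV) (by norm_num)
    have hj1' : 2 ^ j * V₀ ≤ F i := (le_div_iff₀ hV0).1 hj1
    have hj2' : F i < 2 ^ (j + 1) * V₀ := (div_lt_iff₀ hV0).1 hj2
    have hjN : (2 : ℝ) ^ j ≤ N := by
      have h2 := hF i hiS
      have h3 : (0 : ℝ) < 2 ^ j := by positivity
      nlinarith
    have hjlog : j < Nat.log 2 N + 1 := by
      have h2 : 2 ^ j ≤ N := by exact_mod_cast hjN
      have := (Nat.le_log_iff_pow_le (by norm_num) (by omega)).2 h2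
      omega
    have h4 : F i ^ 2 ≤ 4 * (2 ^ j * V₀) ^ 2 := by
      have h5 := pow_le_pow_left₀ (hF0 i hiS) hj2'.le 2
      calc F i ^ 2 ≤ (2 ^ (j + 1) * V₀) ^ 2 := h5
        _ = _ := by ring
    calc F i ^ 2 ≤ (if 2 ^ j * V₀ ≤ F i then 4 * (2 ^ j * V₀) ^ 2 else 0) := by rwa [if_pos hj1']
      _ ≤ _ := single_le_sum (f := fun j : ℕ => if 2 ^ j * V₀ ≤ F i then 4 * (2 ^ j * V₀) ^ 2 else 0)
          (fun j _ => by split_ifs <;> positivity) (mem_range.2 hjlog)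
  refine (sum_le_sum h1).trans ?_
  rw [sum_comm]
  have h2 : ∀ j ∈ range (Nat.log 2 N + 1),
      ∑ i ∈ S.filter (fun i => V₀ ≤ F i),
        (if 2 ^ j * V₀ ≤ F i then 4 * (2 ^ j * V₀) ^ 2 else 0) ≤ 4 * K := by
    intro j _
    have h3 : V₀ ≤ 2 ^ j * V₀ := le_mul_of_one_le_left hV0.le (one_le_pow₀ (by norm_num))
    calc ∑ i ∈ S.filter (fun i => V₀ ≤ F i),
        (if 2 ^ j * V₀ ≤ F i then 4 * (2 ^ j * V₀) ^ 2 else 0)
        ≤ ∑ i ∈ S, (if 2 ^ j * V₀ ≤ F i then 4 * (2 ^ j * V₀) ^ 2 else 0) :=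
          sum_le_sum_of_subset_of_nonneg (filter_subset _ _)
            (fun i _ _ => by split_ifs <;> positivity)
      _ = 4 * (((S.filter (fun i => 2 ^ j * V₀ ≤ F i)).card : ℝ) * (2 ^ j * V₀) ^ 2) := by
          rw [← sum_filter, sum_const, nsmul_eq_mul]
          ring
      _ ≤ _ := mul_le_mul_of_nonneg_left (h _ h3) (by norm_num)
  refine (sum_le_sum h2).trans ?_
  rw [sum_const, card_range, nsmul_eq_mul]
  have hl2 := Real.log_two_gt_d9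
  have hlN : Real.log 2 ≤ Real.log N := Real.log_le_log (by norm_num) hN0
  have h3 : ((Nat.log 2 N : ℕ) : ℝ) * Real.log 2 ≤ Real.log N := by
    rw [← Real.log_pow]
    apply Real.log_le_log (by positivity)
    exact_mod_cast Nat.pow_log_le_self 2 (by omega)
  have h4 : ((Nat.log 2 N + 1 : ℕ) : ℝ) ≤ 3 * Real.log N := by
    push_cast
    nlinarith
  calc ((Nat.log 2 N + 1 : ℕ) : ℝ) * (4 * K) ≤ 3 * Real.log N * (4 * K) :=
        mul_le_mul_of_nonneg_right h4 (by linarith)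
    _ = _ := by ring

/-- from the squares of the large values to all moments -/
theorem moments {ι : Type} (S : Finset ι) (F : ι → ℝ) (M V₀ K q : ℝ) (hM : 0 < M) (hV₀ : 0 ≤ V₀)
    (hF0 : ∀ i ∈ S, 0 ≤ F i) (hF : ∀ i ∈ S, F i ≤ M) (hq : 2 ≤ q)
    (h : ∑ i ∈ S.filter (fun i => V₀ ≤ F i), F i ^ 2 ≤ K) :
    ∑ i ∈ S, F i ^ q ≤ S.card * V₀ ^ q + M ^ (q - 2) * K := by
  classical
  rw [← sum_filter_add_sum_filter_not S (fun i => V₀ ≤ F i), add_comm]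
  refine add_le_add ?_ ?_
  · calc ∑ i ∈ S.filter (fun i => ¬ V₀ ≤ F i), F i ^ q
        ≤ ∑ i ∈ S.filter (fun i => ¬ V₀ ≤ F i), V₀ ^ q := by
          refine sum_le_sum (fun i hi => ?_)
          obtain ⟨hiS, hiV⟩ := mem_filter.1 hi
          exact Real.rpow_le_rpow (hF0 i hiS) (not_le.1 hiV).le (by linarith)
      _ = ((S.filter (fun i => ¬ V₀ ≤ F i)).card : ℝ) * V₀ ^ q := by
          rw [sum_const, nsmul_eq_mul]
      _ ≤ _ := by
          apply mul_le_mul_of_nonneg_right _ (Real.rpow_nonneg hV₀ q)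
          exact_mod_cast card_le_card (filter_subset _ _)
  · calc ∑ i ∈ S.filter (fun i => V₀ ≤ F i), F i ^ q
        ≤ ∑ i ∈ S.filter (fun i => V₀ ≤ F i), M ^ (q - 2) * F i ^ 2 := by
          refine sum_le_sum (fun i hi => ?_)
          obtain ⟨hiS, hiV⟩ := mem_filter.1 hi
          have h0 := hF0 i hiS
          rcases h0.eq_or_lt with h0' | h0'
          · rw [← h0', Real.zero_rpow (by linarith)]
            simp
          · have h1 : F i ^ q = F i ^ (q - 2) * F i ^ 2 := by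
              rw [← Real.rpow_natCast (F i) 2, ← Real.rpow_add h0']
              congr 1
              push_cast
              ring
            rw [h1]
            apply mul_le_mul_of_nonneg_right _ (sq_nonneg _)
            exact Real.rpow_le_rpow h0 (hF i hiS) (by linarith)
      _ = M ^ (q - 2) * ∑ i ∈ S.filter (fun i => V₀ ≤ F i), F i ^ 2 := by rw [mul_sum]
      _ ≤ _ := mul_le_mul_of_nonneg_left h (Real.rpow_nonneg hM.le _)

theorem part_one (N H T : ℕ) (δ : ℝ) (hN : 2 ≤ N) (hH : 1 ≤ H) (hHN : H ≤ N) (hδ : 0 < δ)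
    (hδ1 : δ ≤ 1) : ∃ E : Set (Fin (N / H + 1) → ℝ), MeasurableSet E ∧
      volume (E ∩ Set.Icc 0 1) ≤ ENNReal.ofReal δ ∧
      ∀ θ ∈ Set.Icc (0 : Fin (N / H + 1) → ℝ) 1, θ ∉ E → ∀ b : ℕ → ℂ, (∀ n, ‖b n‖ ≤ 1) →
        ∀ q : ℝ, 2 ≤ q → ∑ t ∈ Finset.Icc 1 T, ‖D N H θ b t‖ ^ q ≤
          T * (10 ^ 7 * N * H * (Real.log N * Real.log (T + 2) + Real.log (1 / δ))) ^ (q / 2) +
            3 * 10 ^ 7 * (2 * N) ^ q * Real.log N ^ 2 := by
  classical
  obtain ⟨E, hE1, hE2, hE3⟩ := MP_ecd12e_nt.RandomFrequencies.part_one N H T δ hN hH hHN hδ hδ1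
  refine ⟨E, hE1, hE2, ?_⟩
  intro θ hθ hθE b hb q hq
  have hN0 : (2 : ℝ) ≤ N := by exact_mod_cast hN
  have hH1 : (1 : ℝ) ≤ H := by exact_mod_cast hH
  have hl2 := Real.log_two_gt_d9
  have hlN : Real.log 2 ≤ Real.log N := Real.log_le_log (by norm_num) hN0
  have hT0 : (0 : ℝ) ≤ T := Nat.cast_nonneg T
  have hlT : Real.log 2 ≤ Real.log (T + 2) := Real.log_le_log (by norm_num) (by linarith)
  have hld : 0 ≤ Real.log (1 / δ) := Real.log_nonneg (by rw [le_div_iff₀ hδ]; linarith)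
  obtain ⟨K₂, hK₂⟩ : ∃ K : ℝ, K = 10 ^ 7 * N * H *
    (Real.log N * Real.log (T + 2) + Real.log (1 / δ)) := ⟨_, rfl⟩
  rw [← hK₂]
  have hL : (0.4 : ℝ) ≤ Real.log N * Real.log (T + 2) + Real.log (1 / δ) := by nlinarith
  have hK2 : 4 ≤ K₂ := by
    have h1 : (1 : ℝ) ≤ N * H := by nlinarith
    rw [hK₂]
    nlinarith
  have hV0 : 2 ≤ Real.sqrt K₂ := Real.le_sqrt_of_sq_le (by linarith)
  have hsq : Real.sqrt K₂ ^ 2 = K₂ := Real.sq_sqrt (by linarith)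
  have h1 := layer (Finset.Icc 1 T) (fun t : ℕ => ‖D N H θ b t‖) N hN (Real.sqrt K₂)
    (10 ^ 7 * N ^ 2 * Real.log N) hV0 (by have : 0 ≤ Real.log N := by linarith
                                          positivity)
    (fun t _ => norm_nonneg _) (fun t _ => D_le N H hN θ hθ b hb t) (by
      intro V hV
      have hVp : 0 < V := by linarith
      refine hE3 θ hθ hθE b hb V ((Finset.Icc 1 T).filter (fun t : ℕ => V ≤ ‖D N H θ b t‖)) hVp
        (fun t ht => (mem_Icc.1 (mem_filter.1 ht).1).2) (fun t ht => (mem_filter.1 ht).2) ?_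
      rw [← hK₂, ← hsq]
      exact pow_le_pow_left₀ (by linarith) hV 2)
  have h2 := moments (Finset.Icc 1 T) (fun t : ℕ => ‖D N H θ b t‖) (2 * N) (Real.sqrt K₂)
    (12 * Real.log N * (10 ^ 7 * N ^ 2 * Real.log N)) q (by linarith) (by linarith)
    (fun t _ => norm_nonneg _) (fun t _ => D_le N H hN θ hθ b hb t) hq h1
  refine h2.trans (le_of_eq ?_)
  congr 1
  · rw [Nat.card_Icc, Nat.add_sub_cancel, Real.sqrt_eq_rpow, ← Real.rpow_mul (by linarith)]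
    congr 2
    ring
  · have h3 : (2 * (N : ℝ)) ^ q = (2 * (N : ℝ)) ^ (q - 2) * (2 * N) ^ 2 := by
      rw [← Real.rpow_natCast (2 * (N : ℝ)) 2, ← Real.rpow_add (by linarith)]
      congr 1
      push_cast
      ring
    rw [h3]
    ring

theorem P_norm {η : ℝ} (hη : 0 < η) (θ : ℕ → unitInterval) (b : ℕ → ℂ) {N : ℕ} (hN : 1 ≤ N)
    (t : ℝ) : ‖P η θ b N t‖ = ‖MP_a93a41_nt.AlmostSurely.D η θ
      (fun n => if N ≤ n then (starRingEnd ℂ) (b n) else 0) (2 * N) t‖ := by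
  rw [← Complex.norm_conj (P η θ b N t)]
  unfold P MP_a93a41_nt.AlmostSurely.D
  rw [map_sum]
  congr 1
  have h1 : Finset.Icc N (2 * N) = (Finset.Icc 1 (2 * N)).filter (fun n => N ≤ n) := by
    ext n
    simp only [mem_Icc, mem_filter]
    omega
  rw [h1, sum_filter]
  refine sum_congr rfl (fun n hn => ?_)
  by_cases h : N ≤ n
  · simp only [if_pos h]
    rw [map_mul]
    congr 1
    have h0 : 0 ≤ (θ n : ℝ) := (θ n).2.1
    have h2 : (1 : ℝ) ≤ n := by exact_mod_cast (mem_Icc.1 hn).1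
    have h3 : (0 : ℝ) < (n : ℝ) + η * (θ n : ℝ) := by positivity
    rw [← DU.ph_cpow h3, ← MP_a93a41_nt.AlmostSurely.ph_neg, DU.ph_cpow h3]
    congr 1
    push_cast
    ring
  · simp only [if_neg h]
    rw [zero_mul]

theorem part_two (η : ℝ) (hη : 0 < η) (hη1 : η ≤ 1) :
    ∀ᵐ θ ∂(Measure.infinitePi (fun _ : ℕ => (volume : Measure unitInterval))),
      ∀ q A ε : ℝ, 2 ≤ q → 1 ≤ A → 0 < ε → ∃ K : ℝ, ∀ N T : ℕ, 1 ≤ N → N ≤ T →
        (T : ℝ) ≤ (N : ℝ) ^ A → ∀ b : ℕ → ℂ, (∀ n, ‖b n‖ ≤ 1) →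
        ∑ t ∈ Finset.Icc 1 T, ‖P η θ b N t‖ ^ q ≤
          K * (N : ℝ) ^ ε * ((N : ℝ) ^ q + T * (N : ℝ) ^ (q / 2)) := by
  classical
  filter_upwards [MP_a93a41_nt.AlmostSurely.result η hη hη1] with θ hθ
  intro q A ε hq hA hε
  obtain ⟨ε', hε'⟩ : ∃ e : ℝ, e = ε / (A * q) := ⟨_, rfl⟩
  have hε'0 : 0 < ε' := by
    rw [hε']
    have : 0 < A * q := by nlinarith
    positivity
  obtain ⟨C₀, hC₀, _⟩ := hθ ε' hε'0
  obtain ⟨C, hCd⟩ : ∃ C : ℝ, C = max C₀ 1 := ⟨_, rfl⟩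
  have hC1 : 1 ≤ C := by rw [hCd]; exact le_max_right _ _
  have hCC : C₀ ≤ C := by rw [hCd]; exact le_max_left _ _
  refine ⟨(8 * C) ^ (q / 2) + 16 * C * 2 ^ q, ?_⟩
  intro N T hN hNT hTA b hb
  have hN1 : (1 : ℝ) ≤ N := by exact_mod_cast hN
  have hT1 : (1 : ℝ) ≤ T := by exact_mod_cast hN.trans hNT
  have hTe : 1 ≤ (T : ℝ) ^ ε' := Real.one_le_rpow hT1 hε'0.le
  obtain ⟨a, ha⟩ : ∃ a : ℕ → ℂ, a = fun n => if N ≤ n then (starRingEnd ℂ) (b n) else 0 := ⟨_, rfl⟩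
  have hPn : ∀ t : ℝ, ‖P η θ b N t‖ = ‖MP_a93a41_nt.AlmostSurely.D η θ a (2 * N) t‖ := by
    intro t
    rw [P_norm hη θ b hN, ha]
  have hX : ∑ n ∈ Finset.Icc 1 (2 * N), ‖a n‖ ^ 2 ≤ 2 * N := by
    calc ∑ n ∈ Finset.Icc 1 (2 * N), ‖a n‖ ^ 2 ≤ ∑ _n ∈ Finset.Icc 1 (2 * N), (1 : ℝ) := by
          refine sum_le_sum (fun n _ => ?_)
          rw [ha]
          simp only
          split_ifs
          · rw [Complex.norm_conj]
            exact pow_le_one₀ (norm_nonneg _) (hb n)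
          · simp
      _ = 2 * N := by
          rw [sum_const, Nat.card_Icc, nsmul_eq_mul, mul_one]
          push_cast [Nat.add_sub_cancel]
          ring
  have hPle : ∀ t : ℝ, ‖P η θ b N t‖ ≤ 2 * N := by
    intro t
    rw [hPn]
    have h1 := MP_a93a41_nt.AlmostSurely.trivial_bound hη θ a (2 * N) t
    push_cast at h1
    have h2 : ‖MP_a93a41_nt.AlmostSurely.D η θ a (2 * N) t‖ ^ 2 ≤ (2 * (N : ℝ)) ^ 2 := by
      refine h1.trans ?_
      rw [pow_two]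
      exact mul_le_mul_of_nonneg_left hX (by positivity)
    exact (sq_le_sq₀ (norm_nonneg _) (by positivity)).1 h2
  -- the squares of the large values
  obtain ⟨V, hV⟩ : ∃ V : ℝ, V = Real.sqrt (8 * C * (T : ℝ) ^ ε' * N) := ⟨_, rfl⟩
  have hV2 : V ^ 2 = 8 * C * (T : ℝ) ^ ε' * N := by
    rw [hV, Real.sq_sqrt (by positivity)]
  have hV0 : 0 ≤ V := by rw [hV]; exact Real.sqrt_nonneg _
  have hbig : ∑ t ∈ (Finset.Icc 1 T).filter (fun t : ℕ => V ≤ ‖P η θ b N t‖), ‖P η θ b N t‖ ^ 2 ≤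
      16 * C * (T : ℝ) ^ ε' * N ^ 2 := by
    obtain ⟨S, hS⟩ : ∃ S : Finset ℝ, S = ((Finset.Icc 1 T).filter
      (fun t : ℕ => V ≤ ‖P η θ b N t‖)).image (fun t : ℕ => (t : ℝ)) := ⟨_, rfl⟩
    have hsumS : ∑ t ∈ (Finset.Icc 1 T).filter (fun t : ℕ => V ≤ ‖P η θ b N t‖),
        ‖P η θ b N t‖ ^ 2 = ∑ t ∈ S, ‖MP_a93a41_nt.AlmostSurely.D η θ a (2 * N) t‖ ^ 2 := by
      rw [hS, sum_image (fun x _ y _ h => Nat.cast_injective h)]
      exact sum_congr rfl (fun t _ => by rw [hPn])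
    have h1 := hC₀ (2 * N) (by omega) T hT1 a S (by
      intro t ht
      rw [hS] at ht
      obtain ⟨n, hn, rfl⟩ := mem_image.1 ht
      exact ⟨Nat.cast_nonneg n, by exact_mod_cast (mem_Icc.1 (mem_filter.1 hn).1).2⟩) (by
      intro t ht u hu htu
      rw [hS] at ht hu
      obtain ⟨n, hn, rfl⟩ := mem_image.1 ht
      obtain ⟨m, hm, rfl⟩ := mem_image.1 hu
      have hne : (n : ℤ) - m ≠ 0 := by
        intro h
        apply htu
        have : (n : ℤ) = m := by omega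
        exact_mod_cast this
      have h1 := Int.one_le_abs hne
      have h2 : ((1 : ℤ) : ℝ) ≤ ((|(n : ℤ) - m| : ℤ) : ℝ) := by exact_mod_cast h1
      push_cast at h2
      exact h2)
    rw [hsumS]
    obtain ⟨Y, hY⟩ : ∃ Y : ℝ, Y = ∑ t ∈ S, ‖MP_a93a41_nt.AlmostSurely.D η θ a (2 * N) t‖ ^ 2 :=
      ⟨_, rfl⟩
    rw [← hY] at h1 ⊢
    have hX0 : 0 ≤ ∑ n ∈ Finset.Icc 1 (2 * N), ‖a n‖ ^ 2 := sum_nonneg (fun _ _ => sq_nonneg _)
    have hs0 : (0 : ℝ) ≤ S.card := Nat.cast_nonneg _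
    have h2 : Y ≤ C * (T : ℝ) ^ ε' * (2 * N + S.card) * (2 * N) := by
      push_cast at h1
      calc Y ≤ _ := h1
        _ ≤ C * (T : ℝ) ^ ε' * (2 * N + S.card) * ∑ n ∈ Finset.Icc 1 (2 * N), ‖a n‖ ^ 2 := by
            apply mul_le_mul_of_nonneg_right _ hX0
            apply mul_le_mul_of_nonneg_right _ (by positivity)
            exact mul_le_mul_of_nonneg_right hCC (by positivity)
        _ ≤ _ := mul_le_mul_of_nonneg_left hX (by positivity)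
    have h3 : (S.card : ℝ) * V ^ 2 ≤ Y := by
      rw [hY]
      calc (S.card : ℝ) * V ^ 2 = ∑ _t ∈ S, V ^ 2 := by rw [sum_const, nsmul_eq_mul]
        _ ≤ _ := by
            refine sum_le_sum (fun t ht => ?_)
            rw [hS] at ht
            obtain ⟨n, hn, rfl⟩ := mem_image.1 ht
            rw [← hPn]
            exact pow_le_pow_left₀ hV0 (mem_filter.1 hn).2 2
    rw [hV2] at h3
    nlinarith
  have hmom := moments (Finset.Icc 1 T) (fun t : ℕ => ‖P η θ b N t‖) (2 * N) V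
    (16 * C * (T : ℝ) ^ ε' * N ^ 2) q (by linarith) hV0 (fun t _ => norm_nonneg _)
    (fun t _ => hPle t) hq hbig
  refine hmom.trans ?_
  rw [Nat.card_Icc, Nat.add_sub_cancel]
  have hTq : ((T : ℝ) ^ ε') ^ (q / 2) ≤ (N : ℝ) ^ ε := by
    calc ((T : ℝ) ^ ε') ^ (q / 2) ≤ (((N : ℝ) ^ A) ^ ε') ^ (q / 2) := by
          apply Real.rpow_le_rpow (by positivity) _ (by linarith)
          exact Real.rpow_le_rpow (by positivity) hTA hε'0.le
      _ = (N : ℝ) ^ (A * ε' * (q / 2)) := by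
          rw [← Real.rpow_mul (by positivity), ← Real.rpow_mul (by positivity)]
          congr 1
          ring
      _ ≤ _ := by
          apply Real.rpow_le_rpow_of_exponent_le hN1
          have h1 : A * ε' * (q / 2) = ε / 2 := by
            rw [hε']
            have : A ≠ 0 := by linarith
            have : q ≠ 0 := by linarith
            field_simp
          rw [h1]
          linarith
  have hTe2 : (T : ℝ) ^ ε' ≤ (N : ℝ) ^ ε := by
    refine le_trans ?_ hTq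
    calc (T : ℝ) ^ ε' = ((T : ℝ) ^ ε') ^ (1 : ℝ) := (Real.rpow_one _).symm
      _ ≤ _ := Real.rpow_le_rpow_of_exponent_le hTe (by linarith)
  have hVq : V ^ q ≤ (8 * C) ^ (q / 2) * ((N : ℝ) ^ ε * (N : ℝ) ^ (q / 2)) := by
    have h1 : V ^ q = (8 * C * (T : ℝ) ^ ε' * N) ^ (q / 2) := by
      rw [hV, Real.sqrt_eq_rpow, ← Real.rpow_mul (by positivity)]
      congr 1
      ring
    rw [h1, Real.mul_rpow (by positivity) (by positivity), Real.mul_rpow (by positivity)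
      (by positivity), mul_assoc]
    apply mul_le_mul_of_nonneg_left _ (by positivity)
    exact mul_le_mul_of_nonneg_right hTq (by positivity)
  have hNε : 1 ≤ (N : ℝ) ^ ε := Real.one_le_rpow hN1 hε.le
  have h2q : (2 * (N : ℝ)) ^ (q - 2) * (16 * C * (T : ℝ) ^ ε' * N ^ 2) ≤
      16 * C * 2 ^ q * ((N : ℝ) ^ ε * (N : ℝ) ^ q) := by
    have h1 : (N : ℝ) ^ q = (N : ℝ) ^ (q - 2) * N ^ 2 := by
      rw [← Real.rpow_natCast (N : ℝ) 2, ← Real.rpow_add (by linarith)]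
      congr 1
      push_cast
      ring
    have h2 : (2 * (N : ℝ)) ^ (q - 2) = 2 ^ (q - 2) * (N : ℝ) ^ (q - 2) :=
      Real.mul_rpow (by norm_num) (by positivity)
    have h3 : (2 : ℝ) ^ (q - 2) ≤ 2 ^ q := Real.rpow_le_rpow_of_exponent_le (by norm_num)
      (by linarith)
    rw [h1, h2]
    calc 2 ^ (q - 2) * (N : ℝ) ^ (q - 2) * (16 * C * (T : ℝ) ^ ε' * N ^ 2)
        = 16 * C * 2 ^ (q - 2) * ((T : ℝ) ^ ε' * ((N : ℝ) ^ (q - 2) * N ^ 2)) := by ring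
      _ ≤ 16 * C * 2 ^ q * ((N : ℝ) ^ ε * ((N : ℝ) ^ (q - 2) * N ^ 2)) := by
          refine mul_le_mul ?_ ?_ (by positivity) (by positivity)
          · exact mul_le_mul_of_nonneg_left h3 (by positivity)
          · exact mul_le_mul_of_nonneg_right hTe2 (by positivity)
  have hTV : (T : ℝ) * V ^ q ≤ T * ((8 * C) ^ (q / 2) * ((N : ℝ) ^ ε * (N : ℝ) ^ (q / 2))) :=
    mul_le_mul_of_nonneg_left hVq (by positivity)
  have hA1 : 0 ≤ (8 * C) ^ (q / 2) := by positivity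
  have hA2 : 0 ≤ 16 * C * 2 ^ q := by positivity
  have hB1 : 0 ≤ (N : ℝ) ^ ε * (N : ℝ) ^ q := by positivity
  have hB2 : 0 ≤ T * ((N : ℝ) ^ ε * (N : ℝ) ^ (q / 2)) := by positivity
  calc (T : ℝ) * V ^ q + (2 * (N : ℝ)) ^ (q - 2) * (16 * C * (T : ℝ) ^ ε' * N ^ 2)
      ≤ (8 * C) ^ (q / 2) * (T * ((N : ℝ) ^ ε * (N : ℝ) ^ (q / 2))) +
        16 * C * 2 ^ q * ((N : ℝ) ^ ε * (N : ℝ) ^ q) := by linarith
    _ ≤ ((8 * C) ^ (q / 2) + 16 * C * 2 ^ q) * (T * ((N : ℝ) ^ ε * (N : ℝ) ^ (q / 2)) +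
        (N : ℝ) ^ ε * (N : ℝ) ^ q) := by nlinarith
    _ = _ := by ring

/-- **Montgomery's `ℓ^q` conjecture for randomly perturbed integers.** (1) Blocks of `H` consecutive
integers of `[N, 2 N]`, `1 ≤ H ≤ N`, `N ≥ 2`, are shifted by numbers `θ_m` of `[0, 1]`. For all `θ`
outside a set of measure at most `δ`, all `|b_n| ≤ 1` and all real `q ≥ 2`:
`∑_{1 ≤ t ≤ T} |D(t)|^q ≤ T (10^7 N H (log N log (T + 2) + log (1 / δ)))^(q / 2) +
3 * 10^7 (2 N)^q (log N)^2`. (2) Let `0 < η ≤ 1`. For almost every sequence `θ ∈ [0, 1]^ℕ`, for all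
`q ≥ 2`, `A ≥ 1` and `ε > 0` there is a `K` such that
`∑_{1 ≤ t ≤ T} |P(t)|^q ≤ K N^ε (N^q + T N^(q / 2))` for all `N ≥ 1`, all `T ∈ [N, N^A]` and all
`|b_n| ≤ 1`, where `P(t) = ∑_{N ≤ n ≤ 2 N} b_n (n + η θ_n)^{it}`. -/
theorem result :
    (∀ (N H T : ℕ) (δ : ℝ), 2 ≤ N → 1 ≤ H → H ≤ N → 0 < δ → δ ≤ 1 →
      ∃ E : Set (Fin (N / H + 1) → ℝ), MeasurableSet E ∧
        volume (E ∩ Set.Icc 0 1) ≤ ENNReal.ofReal δ ∧
        ∀ θ ∈ Set.Icc (0 : Fin (N / H + 1) → ℝ) 1, θ ∉ E → ∀ b : ℕ → ℂ, (∀ n, ‖b n‖ ≤ 1) →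
          ∀ q : ℝ, 2 ≤ q → ∑ t ∈ Finset.Icc 1 T, ‖D N H θ b t‖ ^ q ≤
            T * (10 ^ 7 * N * H * (Real.log N * Real.log (T + 2) + Real.log (1 / δ))) ^ (q / 2) +
              3 * 10 ^ 7 * (2 * N) ^ q * Real.log N ^ 2) ∧
    (∀ η : ℝ, 0 < η → η ≤ 1 →
      ∀ᵐ θ ∂(Measure.infinitePi (fun _ : ℕ => (volume : Measure unitInterval))),
        ∀ q A ε : ℝ, 2 ≤ q → 1 ≤ A → 0 < ε → ∃ K : ℝ, ∀ N T : ℕ, 1 ≤ N → N ≤ T →
          (T : ℝ) ≤ (N : ℝ) ^ A → ∀ b : ℕ → ℂ, (∀ n, ‖b n‖ ≤ 1) →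
          ∑ t ∈ Finset.Icc 1 T, ‖P η θ b N t‖ ^ q ≤
            K * (N : ℝ) ^ ε * ((N : ℝ) ^ q + T * (N : ℝ) ^ (q / 2))) :=
  ⟨part_one, part_two⟩

end Pool.Agent.Results.MP_2a1f0e_nt.RandomFrequencies
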