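import Pool.Agent.X159.MB.RoughLQ

/-!
# Montgomery's `ℓ^q` conjecture: squarefree integers without small prime factors

Let `𝒜(N)` be sets of integers such that every `n ∈ [N, 2N]` is `d a` with `d ∈ D(N)`,
`a ∈ 𝒜(⌈N/d⌉)`, where `∑_{d ∈ D(N)} d^(-1/2) ≤ C_ε N^ε`.  For all fixed `q ≥ 2` and `A ≥ 1` the
bound of Q1 (exponent `q`, `T ≤ N^A`) for all coefficients bounded by `1` is equivalent to the bound
for those supported on `𝒜(N)`; Q1 is equivalent to the latter for `q ≥ 2` and `T ≤ N²`.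

This applies to the squarefree integers without prime factors in `P(N)`, for increasing sets of
primes with `∑_{p ∈ P(N), p ≤ 2N} p^(-1/2) = o(log N)`; for instance to the squarefree integers all
of whose prime factors exceed `(log N)^c`, `c < 2`.
-/

set_option autoImplicit false

namespace Pool.Agent.Results.MP_2a1f0e_nt.SquarefreeRoughSupport

open Pool.Agent.X159.MB

theorem result :
    (∀ 𝒜 : ℕ → Set ℕ, Covers 𝒜 →
      (∀ q A : ℝ, 2 ≤ q → 1 ≤ A →
        (MomentBound (fun b => ∀ n, ‖b n‖ ≤ 1) q A ↔ MomentBoundIn 𝒜 q A)) ∧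
      (MontgomeryLq ↔ ∀ q : ℝ, 2 ≤ q → MomentBoundIn 𝒜 q 2)) ∧
    (∀ P : ℕ → Set ℕ, Thin P → Covers fun N => {n | Squarefree n ∧ ∀ p ∈ P N, ¬ p ∣ n}) ∧
    (∀ c : ℝ, 0 < c → c < 2 → (MontgomeryLq ↔ ∀ q : ℝ, 2 ≤ q →
      MomentBoundIn (fun N =>
        {n | Squarefree n ∧ ∀ p : ℕ, p.Prime → p ∣ n → Real.log N ^ c < (p : ℝ)}) q 2)) := by
  refine ⟨lq_in, fun P hP => covers_rough P hP, fun c hc0 hc => ?_⟩
  have h : (fun N : ℕ => {n | Squarefree n ∧ ∀ p : ℕ, p.Prime → p ∣ n → Real.log N ^ c < (p : ℝ)})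
      = rough (smallPrimes c) := by
    funext N
    ext n
    unfold rough smallPrimes
    constructor
    · rintro ⟨h1, h2⟩
      exact ⟨h1, fun p hp hd => absurd (h2 p hp.1 hd) (not_lt.2 hp.2)⟩
    · rintro ⟨h1, h2⟩
      exact ⟨h1, fun p hp hd => not_le.1 fun hle => h2 p ⟨hp, hle⟩ hd⟩
  rw [h]
  exact (lq_in _ (covers_rough _ (thin_small c hc0 hc))).2

end Pool.Agent.Results.MP_2a1f0e_nt.SquarefreeRoughSupport
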